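import Pool.Agent.Y649.DG.Stm2

set_option autoImplicit false

/-! # Formulas with determinant gates: quadratic systems -/

namespace Pool.Agent.Y108.DG

open Finset
open Pool.Agent.TH697.Form (IsProb)
open Pool.Agent.TH697.Row (ApproximatesOn)
open Pool.Agent.Y638.RF (Asks)
open Pool.Agent.Y638.RF.HN (Qu asks card_Qu card_items logb_facts exists_q many)
open Pool.Agent.Y649.DG

theorem sizes5 {k d : ℕ} (hk0 : 1024 ≤ k) (hm : 7 * d + 8 ≤ k) (s : ℕ) (hs : s < k ^ 5) :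
    4 * (d ^ 4) * (5 * s + 1) + 2 + s ≤ k ^ 9 := by
  have h1 : 2401 * d ^ 4 ≤ k ^ 4 := by
    calc 2401 * d ^ 4 = (7 * d) ^ 4 := by ring
      _ ≤ k ^ 4 := Nat.pow_le_pow_left (by omega) 4
  have h2 : 5 * s + 1 ≤ 5 * k ^ 5 := by omega
  have h3 : 2401 * (4 * (d ^ 4) * (5 * s + 1)) ≤ 20 * k ^ 9 := by
    calc 2401 * (4 * (d ^ 4) * (5 * s + 1)) = 4 * (2401 * d ^ 4) * (5 * s + 1) := by ring
      _ ≤ 4 * (k ^ 4) * (5 * k ^ 5) := Nat.mul_le_mul (Nat.mul_le_mul_left _ h1) h2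
      _ = 20 * k ^ 9 := by ring
  have h5 : k ^ 5 * 10 ≤ k ^ 9 := by
    calc k ^ 5 * 10 ≤ k ^ 5 * k ^ 4 := Nat.mul_le_mul_left _
          ((by omega : 10 ≤ k).trans (by
            calc k = k ^ 1 := (pow_one k).symm
              _ ≤ k ^ 4 := Nat.pow_le_pow_right (by omega) (by norm_num)))
      _ = k ^ 9 := by ring
  have h6 : 1000 ≤ k ^ 5 := by
    calc 1000 ≤ k := by omega
      _ = k ^ 1 := (pow_one k).symm
      _ ≤ k ^ 5 := Nat.pow_le_pow_right (by omega) (by norm_num)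
  omega

/-- the arithmetic -/
lemma arith (c l L N s w : ℝ) (hN : 0 ≤ N) (hc : N ^ 3 / 2 ≤ c) (hl : 10 ≤ l) (hL : 0 ≤ L)
    (hs : 0 ≤ s) (hw : 1 ≤ w)
    (h : c ^ 2 * (N ^ 2 / 51) ^ 2 ≤ 360000 * w ^ 2 * (46 * (l + L)) * s ^ 2) :
    N ^ 5 ≤ 420000 * w * √(l + L) * s := by
  have h0 : (0 : ℝ) ≤ 420000 * w * √(l + L) * s := by positivity
  have h1 : (N ^ 5) ^ 2 ≤ (420000 * w * √(l + L) * s) ^ 2 := by
    rw [mul_pow _ s, mul_pow _ (√(l + L)), mul_pow, Real.sq_sqrt (by linarith)]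
    have h2 : (N ^ 3 / 2) ^ 2 ≤ c ^ 2 := pow_le_pow_left₀ (by positivity) hc 2
    have h3 := mul_le_mul_of_nonneg_right h2 (by positivity : (0 : ℝ) ≤ (N ^ 2 / 51) ^ 2)
    have h4 : (N ^ 3 / 2) ^ 2 * (N ^ 2 / 51) ^ 2 = (N ^ 5) ^ 2 / 10404 := by ring
    have h5 : 0 ≤ w ^ 2 * (l + L) * s ^ 2 := mul_nonneg (mul_nonneg (sq_nonneg _) (by linarith)) (sq_nonneg _)
    rw [h4] at h3
    nlinarith
  exact le_of_sq_le_sq h1 h0

theorem hn (h : S_BOUND) : S_HN := by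
  intro K _ _ k w q hk0 hw hq Ω _ μ hμ s F hsz hF
  classical
  obtain ⟨hl, hl2⟩ := logb_facts hk0
  have hn' : (1024 : ℝ) ≤ k := by exact_mod_cast hk0
  have hw' : (1 : ℝ) ≤ w := by exact_mod_cast hw
  have hs0 : (0 : ℝ) ≤ s := Nat.cast_nonneg s
  have hlq : 0 ≤ Real.logb 2 (q : ℝ) := Real.logb_nonneg (by norm_num) (by exact_mod_cast hq)
  have hwq : 0 ≤ ((w : ℝ) - 1) * Real.logb 2 q := mul_nonneg (by linarith) hlq
  by_cases hs : k ^ 5 ≤ s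
  · have h1 : (k : ℝ) ^ 5 ≤ s := by exact_mod_cast hs
    have h2 : (1 : ℝ) ≤ √(Real.logb 2 k + (w - 1) * Real.logb 2 q) := by
      rw [Real.one_le_sqrt]
      linarith
    have h3 : (1 : ℝ) ≤ 420000 * w * √(Real.logb 2 k + (w - 1) * Real.logb 2 q) := by nlinarith
    nlinarith
  obtain ⟨d, hd, hd2⟩ := exists_q hk0
  have hm := many hk0 hd2
  have h1 := bound_sq h μ hμ F (fun _ => True) Pool.Agent.Y638.RF.HN.hn hF s hsz hq hw (d ^ 4) (k ^ 9)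
    (sizes5 hk0 hd s (by omega)) 0 (by norm_num) univ (T := Qu d) (fun p _ => asks hd p)
    (((k : ℝ) ^ 2 / 51) ^ 2) (by
      have : (1024 : ℝ) * 1024 ≤ (k : ℝ) ^ 2 := by nlinarith
      have h2 : (100 : ℝ) ≤ (k : ℝ) ^ 2 / 51 := by linarith
      nlinarith) (by rw [card_Qu]; exact hm)
    (46 * (Real.logb 2 k + (w - 1) * Real.logb 2 q)) (by
      rw [Nat.cast_pow k 9, Real.logb_pow]
      push_cast
      linarith)
  exact arith _ _ _ _ _ _ (by positivity) card_items hl hwq hs0 hw' h1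

end Pool.Agent.Y108.DG
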